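import Mathlib
import Pool.Agent.H56.RDSChar

set_option autoImplicit false
set_option linter.unusedSectionVars false

namespace Pool.Agent.H58.LL

open Finset Pool.Agent.H56.RDS

section Gal

variable {G : Type} [AddCommGroup G] [Fintype G] [DecidableEq G]
variable {p k b : ℕ} [hp : Fact p.Prime]

/-- Two families with the same character sums have the same value distribution. -/
lemma count_eq_of_cs {ι : Type} (T : Finset ι) (f f' : ι → G)
    (h : ∀ χ : AddChar G ℂ, ∑ x ∈ T, χ (f x) = ∑ x ∈ T, χ (f' x)) (g : G) :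
    (T.filter (fun x => f x = g)).card = (T.filter (fun x => f' x = g)).card := by
  classical
  set F : G → ℂ := fun g => ((T.filter (fun x => f x = g)).card : ℂ)
    - ((T.filter (fun x => f' x = g)).card : ℂ) with hF
  have h1 : ∀ (e : ι → G) (χ : AddChar G ℂ), ∑ g, ((T.filter (fun x => e x = g)).card : ℂ) * χ g
      = ∑ x ∈ T, χ (e x) := by
    intro e χ
    rw [← Finset.sum_fiberwise T e (fun x => χ (e x))]
    refine Finset.sum_congr rfl (fun g _ => ?_)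
    rw [Finset.sum_congr rfl (g := fun _ => χ g) (fun x hx => by
      rw [(Finset.mem_filter.mp hx).2]), Finset.sum_const, nsmul_eq_mul]
  have h2 : ∀ χ : AddChar G ℂ, ∑ g, F g * χ g = 0 := by
    intro χ
    simp only [hF, sub_mul, Finset.sum_sub_distrib]
    rw [h1, h1, h χ, sub_self]
  have h3 := parseval F
  rw [Finset.sum_congr rfl (g := fun _ => (0 : ℝ)) (fun χ _ => by rw [h2 χ]; simp),
    Finset.sum_const_zero] at h3
  have hc : (Fintype.card G : ℝ) ≠ 0 := by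
    have : 0 < Fintype.card G := Fintype.card_pos
    exact_mod_cast this.ne'
  have h4 : ∑ g, ‖F g‖ ^ 2 = 0 := by
    rcases mul_eq_zero.mp h3.symm with h5 | h5
    · exact absurd h5 hc
    · exact h5
  have h5 := (Finset.sum_eq_zero_iff_of_nonneg (fun g _ => by positivity)).mp h4 g
    (Finset.mem_univ g)
  have h6 : F g = 0 := by
    have := pow_eq_zero_iff (two_ne_zero) |>.mp h5
    exact norm_eq_zero.mp this
  have h7 : ((T.filter (fun x => f x = g)).card : ℂ) = ((T.filter (fun x => f' x = g)).card : ℂ) :=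
    sub_eq_zero.mp h6
  exact_mod_cast h7

variable (N : AddSubgroup G) (D : Finset G)
  (hD1 : ∀ g : G, g ∉ N → ((D ×ˢ D).filter (fun x => x.1 - x.2 = g)).card = 1)
  (hD0 : ∀ g : G, g ∈ N → g ≠ 0 → ((D ×ˢ D).filter (fun x => x.1 - x.2 = g)).card = 0)

include hD1 hD0

/-- The Galois action on the character sums. -/
lemma gal_cs (hp2 : p ≠ 2) (hk : 1 ≤ k) (hN : Nat.card N = p ^ b) (hDc : D.card = p ^ b)
    (hexp : ∀ g : G, p ^ (k + 1) • g = 0) (χ : AddChar G ℂ) :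
    ∃ ω : ℂ, ω ^ p = 1 ∧
      ∀ j : ℕ, ∑ d ∈ D, χ ((1 + j * p ^ k) • d) = ω ^ j * ∑ d ∈ D, χ d := by
  classical
  have hpp := hp.out
  have hq0 : p ^ (k + 1) ≠ 0 := pow_ne_zero _ hpp.ne_zero
  -- powers prime to p keep nontriviality
  have hnt : ∀ (t : ℕ), t.Coprime p → ∀ x, χ x ≠ 1 → (χ ^ t) x ≠ 1 := by
    intro t ht x hx' h3
    apply hx'
    rw [AddChar.pow_apply] at h3
    have h4 : χ x ^ (p ^ (k + 1)) = 1 := by
      rw [← AddChar.map_nsmul_eq_pow, hexp, AddChar.map_zero_eq_one]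
    have h5 : orderOf (χ x) ∣ Nat.gcd t (p ^ (k + 1)) :=
      Nat.dvd_gcd (orderOf_dvd_of_pow_eq_one h3) (orderOf_dvd_of_pow_eq_one h4)
    rw [Nat.Coprime.pow_right _ ht] at h5
    exact orderOf_eq_one_iff.mp (Nat.dvd_one.mp h5)
  have hcop : ∀ j : ℕ, (1 + j * p ^ k).Coprime p := by
    intro j
    obtain ⟨m, rfl⟩ : ∃ m, k = m + 1 := ⟨k - 1, by omega⟩
    have : 1 + j * p ^ (m + 1) = 1 + (j * p ^ m) * p := by ring
    rw [this]
    simp
  have hcsj : ∀ j : ℕ, ∑ d ∈ D, χ ((1 + j * p ^ k) • d) = cs (χ ^ (1 + j * p ^ k)) D := by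
    intro j
    unfold cs
    refine Finset.sum_congr rfl (fun d _ => ?_)
    rw [AddChar.pow_apply, AddChar.map_nsmul_eq_pow]
  by_cases h1 : ∃ x ∈ N, χ x ≠ 1
  · obtain ⟨ζ, hζ⟩ : ∃ ζ : ℂ, IsPrimitiveRoot ζ (p ^ (k + 1)) :=
      ⟨_, Complex.isPrimitiveRoot_exp _ hq0⟩
    have hval : ∀ g : G, ∃ i : ℕ, ζ ^ i = χ g := by
      intro g
      have h3 : χ g ^ (p ^ (k + 1)) = 1 := by
        rw [← AddChar.map_nsmul_eq_pow, hexp, AddChar.map_zero_eq_one]
      have : NeZero (p ^ (k + 1)) := ⟨hq0⟩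
      obtain ⟨i, _, hi⟩ := hζ.eq_pow_of_pow_eq_one h3
      exact ⟨i, hi⟩
    choose i hi using hval
    have hsum : ∀ t : ℕ, ∑ d ∈ D, ζ ^ (t * i d) = cs (χ ^ t) D := by
      intro t
      unfold cs
      refine Finset.sum_congr rfl (fun d _ => ?_)
      rw [AddChar.pow_apply, ← hi d, ← pow_mul, mul_comm]
    obtain ⟨ω, hω1, hω2⟩ := key_num (p := p) (k := k) hp2 hk D i b ζ hζ (by
      intro t ht
      rw [hsum, norm_sq_of_nontrivial N D hD1 hD0 (χ ^ t) ?_, hDc]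
      · push_cast; rfl
      · obtain ⟨x, hx, hx'⟩ := h1
        exact ⟨x, hx, hnt t ht x hx'⟩)
    refine ⟨ω, hω1, fun j => ?_⟩
    rw [hcsj, ← hsum, hω2 j]
    congr 1
    have := hsum 1
    simp only [one_mul, pow_one] at this
    exact this
  · push Not at h1
    by_cases h2 : ∃ x, χ x ≠ 1
    · refine ⟨1, one_pow _, fun j => ?_⟩
      have e1 : ∑ d ∈ D, χ d = 0 :=
        norm_sq_of_trivial N D hD1 hD0 χ h1 h2 (by rw [hN, hDc])
      obtain ⟨x, hx⟩ := h2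
      rw [hcsj, e1, mul_zero]
      refine norm_sq_of_trivial N D hD1 hD0 (χ ^ (1 + j * p ^ k)) ?_ ⟨x, hnt _ (hcop j) x hx⟩
        (by rw [hN, hDc])
      intro y hy
      rw [AddChar.pow_apply, h1 y hy, one_pow]
    · push Not at h2
      refine ⟨1, one_pow _, fun j => ?_⟩
      rw [one_pow, one_mul]
      exact Finset.sum_congr rfl (fun d _ => by rw [h2, h2])

/-- The Galois identity: `T_j D + T_{-j} D = D + D` as multisets. -/
theorem gal (hp2 : p ≠ 2) (hk : 1 ≤ k) (hN : Nat.card N = p ^ b) (hDc : D.card = p ^ b)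
    (hexp : ∀ g : G, p ^ (k + 1) • g = 0) (j : ℕ) (g : G) :
    ((D ×ˢ D).filter (fun x => x.1 + x.2 + j • (p ^ k • (x.1 - x.2)) = g)).card
      = ((D ×ˢ D).filter (fun x => x.1 + x.2 = g)).card := by
  classical
  have hpp := hp.out
  refine count_eq_of_cs (D ×ˢ D) (fun x => x.1 + x.2 + j • (p ^ k • (x.1 - x.2)))
    (fun x => x.1 + x.2) (fun χ => ?_) g
  obtain ⟨ω, hω1, hω2⟩ := gal_cs N D hD1 hD0 hp2 hk hN hDc hexp χ
  -- the complementary exponent
  set j' : ℕ := j * (p - 1) with hj'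
  have hjj : j + j' = j * p := by
    rw [hj']
    obtain ⟨m, hm⟩ : ∃ m, p = m + 1 := ⟨p - 1, by have := hpp.two_le; omega⟩
    rw [hm]; simp; ring
  have e1 : ∀ x : G × G, x.1 + x.2 + j • (p ^ k • (x.1 - x.2))
      = (1 + j * p ^ k) • x.1 + (1 + j' * p ^ k) • x.2 := by
    intro x
    have h1 : (j + j') • (p ^ k • x.2) = 0 := by
      rw [hjj, ← mul_nsmul', show j * p * p ^ k = j * p ^ (k + 1) by ring, mul_nsmul', hexp,
        nsmul_zero]
    have h2 : j' • (p ^ k • x.2) = - (j • (p ^ k • x.2)) := by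
      rw [add_nsmul] at h1
      exact (neg_eq_of_add_eq_zero_right h1).symm
    rw [add_nsmul, add_nsmul, one_nsmul, one_nsmul, mul_nsmul', mul_nsmul', h2, nsmul_sub, nsmul_sub]
    abel
  have e2 : ∑ x ∈ D ×ˢ D, χ (x.1 + x.2 + j • (p ^ k • (x.1 - x.2)))
      = (∑ d ∈ D, χ ((1 + j * p ^ k) • d)) * ∑ d ∈ D, χ ((1 + j' * p ^ k) • d) := by
    rw [Finset.sum_mul_sum, ← Finset.sum_product']
    refine Finset.sum_congr rfl (fun x _ => ?_)
    rw [e1, AddChar.map_add_eq_mul]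
  have e3 : ∑ x ∈ D ×ˢ D, χ (x.1 + x.2) = (∑ d ∈ D, χ d) * ∑ d ∈ D, χ d := by
    rw [Finset.sum_mul_sum, ← Finset.sum_product']
    refine Finset.sum_congr rfl (fun x _ => ?_)
    rw [AddChar.map_add_eq_mul]
  rw [e2, e3, hω2, hω2]
  have e4 : ω ^ j * ω ^ j' = 1 := by
    rw [← pow_add, hjj, mul_comm, pow_mul, hω1, one_pow]
  calc ω ^ j * (∑ d ∈ D, χ d) * (ω ^ j' * ∑ d ∈ D, χ d)
      = (ω ^ j * ω ^ j') * ((∑ d ∈ D, χ d) * ∑ d ∈ D, χ d) := by ring
    _ = (∑ d ∈ D, χ d) * ∑ d ∈ D, χ d := by rw [e4, one_mul]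

end Gal

end Pool.Agent.H58.LL
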