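import Mathlib
import Pool.Agent.H56.RDSChar

set_option autoImplicit false
set_option linter.unusedSectionVars false

namespace Pool.Agent.H58.LL

open Finset Pool.Agent.H56.RDS

section Coset

variable {G : Type} [AddCommGroup G] [Fintype G] [DecidableEq G]
variable (U : AddSubgroup G) [DecidablePred (· ∈ U)]

lemma card_translate (a : G) : (Finset.univ.filter (fun g => a - g ∈ U)).card = Nat.card U := by
  rw [← card_filter_subgroup U]
  refine Finset.card_bij' (fun g _ => a - g) (fun u _ => a - u) ?_ ?_ ?_ ?_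
  · intro g hg
    simpa using hg
  · intro u hu
    simpa using hu
  · intro g _; simp
  · intro u _; simp

lemma sum_coset {ι : Type} (T : Finset ι) (s : ι → G) :
    ∑ g, ((T.filter (fun x => s x - g ∈ U)).card : ℤ) = (Nat.card U : ℤ) * T.card := by
  have h1 : ∀ g, ((T.filter (fun x => s x - g ∈ U)).card : ℤ)
      = ∑ x ∈ T, if s x - g ∈ U then (1 : ℤ) else 0 := by
    intro g
    rw [Finset.card_filter]; push_cast; rfl
  rw [Finset.sum_congr rfl (fun g _ => h1 g), Finset.sum_comm]
  have h2 : ∀ x ∈ T, ∑ g, (if s x - g ∈ U then (1 : ℤ) else 0) = (Nat.card U : ℤ) := by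
    intro x _
    rw [← card_translate U (s x), Finset.card_filter]; push_cast; rfl
  rw [Finset.sum_congr rfl h2, Finset.sum_const, nsmul_eq_mul]
  ring

lemma sum_sq_coset {ι : Type} (T : Finset ι) (s : ι → G) :
    ∑ g, ((T.filter (fun x => s x - g ∈ U)).card : ℤ) ^ 2
      = (Nat.card U : ℤ) * (((T ×ˢ T).filter (fun x => s x.1 - s x.2 ∈ U)).card : ℤ) := by
  have h1 : ∀ g, ((T.filter (fun x => s x - g ∈ U)).card : ℤ) ^ 2
      = ∑ x ∈ T ×ˢ T, if (s x.1 - g ∈ U ∧ s x.2 - g ∈ U) then (1 : ℤ) else 0 := by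
    intro g
    rw [Finset.card_filter]; push_cast
    rw [sq, Finset.sum_mul_sum, ← Finset.sum_product']
    refine Finset.sum_congr rfl (fun x _ => ?_)
    by_cases h : s x.1 - g ∈ U <;> by_cases h' : s x.2 - g ∈ U <;> simp [h, h']
  rw [Finset.sum_congr rfl (fun g _ => h1 g), Finset.sum_comm]
  have h2 : ∀ x ∈ T ×ˢ T, ∑ g, (if (s x.1 - g ∈ U ∧ s x.2 - g ∈ U) then (1 : ℤ) else 0)
      = (Nat.card U : ℤ) * (if s x.1 - s x.2 ∈ U then 1 else 0) := by
    intro x _
    by_cases h : s x.1 - s x.2 ∈ U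
    · rw [if_pos h, mul_one, ← card_translate U (s x.1), Finset.card_filter]; push_cast
      refine Finset.sum_congr rfl (fun g _ => ?_)
      have : (s x.1 - g ∈ U ∧ s x.2 - g ∈ U) ↔ s x.1 - g ∈ U := by
        constructor
        · exact fun h => h.1
        · intro h3
          refine ⟨h3, ?_⟩
          have : s x.2 - g = (s x.1 - g) - (s x.1 - s x.2) := by abel
          rw [this]
          exact U.sub_mem h3 h
      simp only [this]
    · rw [if_neg h, mul_zero]
      apply Finset.sum_eq_zero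
      intro g _
      rw [if_neg]
      rintro ⟨h3, h4⟩
      apply h
      have : s x.1 - s x.2 = (s x.1 - g) - (s x.2 - g) := by abel
      rw [this]
      exact U.sub_mem h3 h4
  rw [Finset.sum_congr rfl h2, ← Finset.mul_sum, Finset.card_filter]
  push_cast
  rfl

end Coset

section RDS

variable {G : Type} [AddCommGroup G] [Fintype G] [DecidableEq G]
variable (N : AddSubgroup G) (D : Finset G) (n : ℕ)
  (hD1 : ∀ g : G, g ∉ N → ((D ×ˢ D).filter (fun x => x.1 - x.2 = g)).card = 1)
  (hD0 : ∀ g : G, g ∈ N → g ≠ 0 → ((D ×ˢ D).filter (fun x => x.1 - x.2 = g)).card = 0)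

/-- Sum over pairs by their difference. -/
lemma sum_diff (E : Finset G) (f : G → ℤ) :
    ∑ x ∈ E ×ˢ E, f (x.1 - x.2) = ∑ t, (rep E t : ℤ) * f t := by
  rw [← Finset.sum_fiberwise (E ×ˢ E) (fun x => x.1 - x.2) (fun x => f (x.1 - x.2))]
  refine Finset.sum_congr rfl (fun g _ => ?_)
  rw [Finset.sum_congr rfl (g := fun _ => f g) (fun x hx => by
    rw [(Finset.mem_filter.mp hx).2]), Finset.sum_const, nsmul_eq_mul]
  rfl

/-- Regrouping of a sum over quadruples. -/
lemma quad_regroup (E : Finset G) (f : G → G → ℤ) :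
    ∑ x ∈ E ×ˢ E, ∑ y ∈ E ×ˢ E, f (x.1 - y.1) (y.2 - x.2)
      = ∑ t, ∑ t', (rep E t : ℤ) * (rep E t' : ℤ) * f t t' := by
  have h1 : ∑ x ∈ E ×ˢ E, ∑ y ∈ E ×ˢ E, f (x.1 - y.1) (y.2 - x.2)
      = ∑ a ∈ E ×ˢ E, ∑ c ∈ E ×ˢ E, f (a.1 - a.2) (c.1 - c.2) := by
    simp only [Finset.sum_product]
    -- LHS: ∑ x1 ∑ x2 ∑ y1 ∑ y2 ; RHS: ∑ a1 ∑ a2 ∑ c1 ∑ c2 with a1=x1,a2=y1,c1=y2,c2=x2
    refine Finset.sum_congr rfl (fun x1 _ => ?_)
    rw [Finset.sum_comm]
    refine Finset.sum_congr rfl (fun y1 _ => ?_)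
    rw [Finset.sum_comm]
  rw [h1, sum_diff E (fun t => ∑ c ∈ E ×ˢ E, f t (c.1 - c.2))]
  refine Finset.sum_congr rfl (fun t _ => ?_)
  rw [sum_diff E (fun t' => f t t'), Finset.mul_sum]
  refine Finset.sum_congr rfl (fun t' _ => ?_)
  ring

include hD1 hD0

lemma rep_formula (hDc : D.card = n) [DecidablePred (· ∈ N)] (t : G) :
    (rep D t : ℤ) = 1 - (if t ∈ N then 1 else 0) + (if t = 0 then (n : ℤ) else 0) := by
  by_cases h0 : t = 0
  · rw [h0, rep_zero, hDc, if_pos N.zero_mem, if_pos rfl]; ring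
  · rw [if_neg h0]
    by_cases hN : t ∈ N
    · have : rep D t = 0 := hD0 t hN h0
      rw [this, if_pos hN]; simp
    · have : rep D t = 1 := hD1 t hN
      rw [this, if_neg hN]; simp

lemma rep_le_one' {t : G} (ht : t ≠ 0) : rep D t ≤ 1 :=
  rep_le_one N D hD1 hD0 (Finset.Subset.refl D) t ht

/-- The autocorrelation of the number of representations. -/
lemma autocorr (hDc : D.card = n) (hG : Fintype.card G = n ^ 2) (hN : Nat.card N = n) (u : G) :
    ∑ t, (rep D t : ℤ) * (rep D (t - u) : ℤ) ≤ (n : ℤ) ^ 2 + (if u = 0 then (n : ℤ) ^ 2 else 0) := by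
  classical
  have hf := rep_formula N D n hD1 hD0 hDc
  set a : G → ℤ := fun t => if t ∈ N then 1 else 0 with ha
  set e : G → ℤ := fun t => if t = 0 then (n : ℤ) else 0 with he
  have h1 : ∀ t, (rep D t : ℤ) * (rep D (t - u) : ℤ)
      = 1 - a (t - u) + e (t - u) - a t + a t * a (t - u) - a t * e (t - u)
        + e t - e t * a (t - u) + e t * e (t - u) := by
    intro t
    rw [hf t, hf (t - u)]
    simp only [ha, he]
    ring
  have hsa : ∑ t, a t = (n : ℤ) := by
    have : ∑ t, a t = ((Finset.univ.filter (· ∈ N)).card : ℤ) := by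
      rw [Finset.card_filter]; push_cast; rfl
    rw [this, card_filter_subgroup, hN]
  have hshift : ∀ f : G → ℤ, ∑ t, f (t - u) = ∑ t, f t := by
    intro f
    exact Fintype.sum_equiv (Equiv.subRight u) _ _ (fun t => rfl)
  have hse : ∑ t, e t = (n : ℤ) := by
    simp only [he]
    rw [Finset.sum_ite_eq' Finset.univ (0 : G)]
    simp
  have haa : ∑ t, a t * a (t - u) = n * a u := by
    by_cases hu : u ∈ N
    · have : ∀ t, a t * a (t - u) = a t := by
        intro t
        simp only [ha]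
        by_cases ht : t ∈ N
        · rw [if_pos ht, if_pos (N.sub_mem ht hu)]; ring
        · rw [if_neg ht]; ring
      rw [Finset.sum_congr rfl (fun t _ => this t), hsa]
      simp only [ha]
      rw [if_pos hu, mul_one]
    · have : ∀ t, a t * a (t - u) = 0 := by
        intro t
        simp only [ha]
        by_cases ht : t ∈ N
        · rw [if_neg (c := t - u ∈ N), mul_zero]
          intro h
          apply hu
          have := N.sub_mem ht h
          simpa using this
        · rw [if_neg ht, zero_mul]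
      rw [Finset.sum_congr rfl (fun t _ => this t)]
      simp only [ha]
      rw [if_neg hu]; simp
  have hae : ∑ t, a t * e (t - u) = n * a u := by
    have : ∀ t, a t * e (t - u) = if t = u then n * a u else 0 := by
      intro t
      simp only [he, sub_eq_zero]
      by_cases h : t = u
      · rw [if_pos h, if_pos h, h]; ring
      · rw [if_neg h, if_neg h, mul_zero]
    rw [Finset.sum_congr rfl (fun t _ => this t), Finset.sum_ite_eq' Finset.univ u]
    simp
  have hea : ∑ t, e t * a (t - u) = n * a u := by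
    have : ∀ t, e t * a (t - u) = if t = 0 then n * a u else 0 := by
      intro t
      simp only [he]
      by_cases h : t = 0
      · rw [if_pos h, if_pos h, h]
        simp only [ha, zero_sub, N.neg_mem_iff]
      · rw [if_neg h, if_neg h, zero_mul]
    rw [Finset.sum_congr rfl (fun t _ => this t), Finset.sum_ite_eq' Finset.univ (0 : G)]
    simp
  have hee : ∑ t, e t * e (t - u) = if u = 0 then (n : ℤ) ^ 2 else 0 := by
    have : ∀ t, e t * e (t - u) = if t = 0 then (if u = 0 then (n : ℤ) ^ 2 else 0) else 0 := by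
      intro t
      simp only [he]
      by_cases h : t = 0
      · rw [if_pos h, if_pos h, h]
        simp only [zero_sub, neg_eq_zero]
        by_cases h2 : u = 0
        · rw [if_pos h2, if_pos h2]; ring
        · rw [if_neg h2, if_neg h2, mul_zero]
      · rw [if_neg h, if_neg h, zero_mul]
    rw [Finset.sum_congr rfl (fun t _ => this t), Finset.sum_ite_eq' Finset.univ (0 : G)]
    simp
  have hau : 0 ≤ (n : ℤ) * a u := by
    simp only [ha]
    split_ifs
    · simp
    · simp
  rw [Finset.sum_congr rfl (fun t _ => h1 t)]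
  simp only [Finset.sum_add_distrib, Finset.sum_sub_distrib]
  rw [hshift a, hshift e, hsa, hse, haa, hae, hea, hee]
  have hc : ∑ _t : G, (1 : ℤ) = (n : ℤ) ^ 2 := by
    rw [Finset.sum_const, Finset.card_univ, hG]; simp
  rw [hc]
  linarith

/-- The energy of the sums over the cosets of a subgroup. -/
lemma energy (U : AddSubgroup G) [DecidablePred (· ∈ U)] (hDc : D.card = n)
    (hG : Fintype.card G = n ^ 2) (hN : Nat.card N = n) :
    ((((D ×ˢ D) ×ˢ (D ×ˢ D)).filter
      (fun x => (x.1.1 + x.1.2) - (x.2.1 + x.2.2) ∈ U)).card : ℤ)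
      ≤ (Nat.card U : ℤ) * n ^ 2 + n ^ 2 := by
  rw [Finset.card_filter]
  push_cast
  rw [Finset.sum_product]
  have h1 : ∀ x y : G × G, (if (x.1 + x.2) - (y.1 + y.2) ∈ U then (1 : ℤ) else 0)
      = (fun t t' : G => if t - t' ∈ U then (1 : ℤ) else 0) (x.1 - y.1) (y.2 - x.2) := by
    intro x y
    have : (x.1 - y.1) - (y.2 - x.2) = (x.1 + x.2) - (y.1 + y.2) := by abel
    simp only [this]
  simp only [h1]
  rw [quad_regroup D (fun t t' : G => if t - t' ∈ U then (1 : ℤ) else 0)]
  -- substitute t' = t - u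
  have h2 : ∀ t : G, ∑ t', (rep D t : ℤ) * (rep D t' : ℤ) * (if t - t' ∈ U then (1 : ℤ) else 0)
      = ∑ u, (rep D t : ℤ) * (rep D (t - u) : ℤ) * (if u ∈ U then (1 : ℤ) else 0) := by
    intro t
    refine Fintype.sum_equiv (Equiv.subLeft t) _ _ (fun t' => ?_)
    simp
  rw [Finset.sum_congr rfl (fun t _ => h2 t), Finset.sum_comm]
  have h3 : ∀ u : G, ∑ t, (rep D t : ℤ) * (rep D (t - u) : ℤ) * (if u ∈ U then (1 : ℤ) else 0)
      ≤ (if u ∈ U then (n : ℤ) ^ 2 else 0) + (if u = 0 then (n : ℤ) ^ 2 else 0) := by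
    intro u
    rw [← Finset.sum_mul]
    by_cases hu : u ∈ U
    · rw [if_pos hu, if_pos hu, mul_one]
      exact autocorr N D n hD1 hD0 hDc hG hN u
    · rw [if_neg hu, if_neg hu, mul_zero]
      split_ifs <;> positivity
  refine (Finset.sum_le_sum (fun u _ => h3 u)).trans ?_
  rw [Finset.sum_add_distrib, Finset.sum_ite_eq' Finset.univ (0 : G), ← Finset.sum_filter,
    Finset.sum_const, card_filter_subgroup]
  simp

end RDS

end Pool.Agent.H58.LL
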