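import Mathlib
import Pool.Agent.H58.LL.Cnt

set_option autoImplicit false
set_option linter.unusedSectionVars false

namespace Pool.Agent.H58.LL

open Finset Pool.Agent.H56.RDS

section Sec

variable {G : Type} [AddCommGroup G] [Fintype G] [DecidableEq G]
variable (N : AddSubgroup G) (D : Finset G) (n : ℕ)
  (hD1 : ∀ g : G, g ∉ N → ((D ×ˢ D).filter (fun x => x.1 - x.2 = g)).card = 1)
  (hD0 : ∀ g : G, g ∈ N → g ≠ 0 → ((D ×ˢ D).filter (fun x => x.1 - x.2 = g)).card = 0)

include hD1 hD0

/-- A nonzero difference is represented by at most one pair. -/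
lemma diff_unique {a b c d : G} (ha : a ∈ D) (hb : b ∈ D) (hc : c ∈ D) (hd : d ∈ D)
    (h : a - b = c - d) (h0 : a - b ≠ 0) : a = c ∧ b = d := by
  have h1 : rep D (a - b) ≤ 1 := rep_le_one' N D hD1 hD0 h0
  unfold rep at h1
  have h2 := Finset.card_le_one.mp h1 (a, b) (by simp [ha, hb]) (c, d) (by simp [hc, hd, h])
  exact Prod.mk.inj h2

/-- Sums determine the unordered pair. -/
lemma sum_unique {a b c d : G} (ha : a ∈ D) (hb : b ∈ D) (hc : c ∈ D) (hd : d ∈ D)
    (h : a + b = c + d) : (a = c ∧ b = d) ∨ (a = d ∧ b = c) := by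
  by_cases h0 : a - c = 0
  · left
    have h1 : a = c := sub_eq_zero.mp h0
    refine ⟨h1, ?_⟩
    rw [h1] at h
    exact add_left_cancel h
  · right
    have h1 : a - c = d - b := by
      rw [sub_eq_sub_iff_add_eq_add, h]; abel
    have h2 := diff_unique N D hD1 hD0 ha hc hd hb h1 h0
    exact ⟨h2.1, h2.2.symm⟩

/-- The number of pairs with the same image. -/
lemma count_same (hDc : D.card = n) (q κ : ℕ)
    (hκ : (Finset.univ.filter (fun t : G => q • t = 0)).card = κ) :
    (((D ×ˢ D).filter (fun x => q • (x.1 - x.2) = 0)).card : ℤ) ≤ n + κ := by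
  rw [Finset.card_filter]
  push_cast
  rw [sum_diff D (fun t => if q • t = 0 then (1 : ℤ) else 0)]
  have h1 : ∀ t : G, (rep D t : ℤ) * (if q • t = 0 then (1 : ℤ) else 0)
      ≤ (if t = 0 then (n : ℤ) else 0) + (if q • t = 0 then (1 : ℤ) else 0) := by
    intro t
    by_cases h0 : t = 0
    · rw [h0, rep_zero, hDc]; simp
    · have h2 : (rep D t : ℤ) ≤ 1 := by exact_mod_cast rep_le_one' N D hD1 hD0 h0
      rw [if_neg h0]
      by_cases h3 : q • t = 0
      · rw [if_pos h3]; linarith
      · rw [if_neg h3]; simp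
  refine (Finset.sum_le_sum (fun t _ => h1 t)).trans ?_
  rw [Finset.sum_add_distrib, Finset.sum_ite_eq' Finset.univ (0 : G)]
  have h2 : ∑ t : G, (if q • t = 0 then (1 : ℤ) else 0) = κ := by
    rw [← hκ, Finset.card_filter]; push_cast; rfl
  rw [h2]; simp

/-- The second moment. -/
lemma second (hDc : D.card = n) (q κ : ℕ) (U : AddSubgroup G) [DecidablePred (· ∈ U)]
    (hqU : ∀ u ∈ U, q • u = 0) (hmem : ∀ g : G, q • g ∈ U) (h2U : ∀ u ∈ U, 2 • u = 0 → u = 0)
    (hκ : (Finset.univ.filter (fun t : G => q • t = 0)).card = κ) :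
    ((((D ×ˢ D) ×ˢ (D ×ˢ D)).filter (fun x => (x.1.1 + x.1.2) - (x.2.1 + x.2.2) ∈ U ∧
        q • (x.1.1 - x.1.2) = q • (x.2.1 - x.2.2) ∧ q • (x.1.1 - x.1.2) ≠ 0)).card : ℤ)
      ≤ (((D ×ˢ D).filter (fun x => q • (x.1 - x.2) ≠ 0)).card : ℤ)
        + ((Nat.card U : ℤ) - 1) * (κ + 2 * n) := by
  classical
  rw [Finset.card_filter]
  push_cast
  rw [Finset.sum_product]
  -- pointwise bound
  have h1 : ∀ x ∈ D ×ˢ D, ∀ y ∈ D ×ˢ D,
      (if (x.1 + x.2) - (y.1 + y.2) ∈ U ∧ q • (x.1 - x.2) = q • (y.1 - y.2) ∧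
        q • (x.1 - x.2) ≠ 0 then (1 : ℤ) else 0)
      ≤ (if y = x then (if q • (x.1 - x.2) ≠ 0 then (1 : ℤ) else 0) else 0)
        + (fun t t' : G => if q • t = 0 ∧ t - t' ∈ U ∧ t - t' ≠ 0 then (1 : ℤ) else 0)
          (x.1 - y.1) (y.2 - x.2) := by
    intro x hx y hy
    rw [Finset.mem_product] at hx hy
    by_cases hc : (x.1 + x.2) - (y.1 + y.2) ∈ U ∧ q • (x.1 - x.2) = q • (y.1 - y.2) ∧
        q • (x.1 - x.2) ≠ 0
    swap
    · rw [if_neg hc]
      have e1 : (0 : ℤ) ≤ (if y = x then (if q • (x.1 - x.2) ≠ 0 then (1 : ℤ) else 0) else 0) := by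
        split_ifs <;> norm_num
      have e2 : (0 : ℤ) ≤ (fun t t' : G => if q • t = 0 ∧ t - t' ∈ U ∧ t - t' ≠ 0
          then (1 : ℤ) else 0) (x.1 - y.1) (y.2 - x.2) := by
        simp only []
        split_ifs <;> norm_num
      linarith
    rw [if_pos hc]
    obtain ⟨hc1, hc2, hc3⟩ := hc
    set u := (x.1 + x.2) - (y.1 + y.2) with hu
    have hut : (x.1 - y.1) - (y.2 - x.2) = u := by rw [hu]; abel
    have hqu : q • u = 0 := hqU u hc1
    have hqt : q • (x.1 - y.1) = 0 := by
      apply h2U _ (hmem _)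
      have e1 : 2 • (q • (x.1 - y.1)) = q • u + (q • (x.1 - x.2) - q • (y.1 - y.2)) := by
        rw [hu, ← nsmul_sub, ← nsmul_add, ← mul_nsmul, mul_comm, mul_nsmul]
        congr 1
        rw [two_nsmul]; abel
      rw [e1, hqu, hc2]; simp
    by_cases hu0 : u = 0
    · -- then x = y
      have ht : x.1 - y.1 = y.2 - x.2 := by
        rw [hu0] at hut; exact sub_eq_zero.mp hut
      by_cases ht0 : x.1 - y.1 = 0
      · have hxy : y = x := by
          rw [ht0] at ht
          exact Prod.ext (sub_eq_zero.mp ht0).symm (sub_eq_zero.mp ht.symm)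
        rw [if_pos hxy, if_pos hc3]
        have e2 : (0 : ℤ) ≤ (fun t t' : G => if q • t = 0 ∧ t - t' ∈ U ∧ t - t' ≠ 0
            then (1 : ℤ) else 0) (x.1 - y.1) (y.2 - x.2) := by
          simp only []
          split_ifs <;> norm_num
        linarith
      · exfalso
        have h4 := diff_unique N D hD1 hD0 hx.1 hy.1 hy.2 hx.2 ht ht0
        apply hc3
        rw [← h4.2]
        exact hqt
    · have e1 : (0 : ℤ) ≤ (if y = x then (if q • (x.1 - x.2) ≠ 0 then (1 : ℤ) else 0) else 0) := by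
        split_ifs <;> norm_num
      have e2 : (fun t t' : G => if q • t = 0 ∧ t - t' ∈ U ∧ t - t' ≠ 0
            then (1 : ℤ) else 0) (x.1 - y.1) (y.2 - x.2) = 1 := by
        simp only []
        rw [hut, if_pos ⟨hqt, hc1, hu0⟩]
      rw [e2]; linarith
  refine (Finset.sum_le_sum (fun x hx => Finset.sum_le_sum (fun y hy => h1 x hx y hy))).trans ?_
  simp only [Finset.sum_add_distrib]
  apply add_le_add
  · -- diagonal part
    rw [Finset.card_filter]
    push_cast
    refine le_of_eq (Finset.sum_congr rfl (fun x hx => ?_))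
    rw [Finset.sum_ite_eq' (D ×ˢ D) x, if_pos hx]
  · rw [quad_regroup D (fun t t' : G => if q • t = 0 ∧ t - t' ∈ U ∧ t - t' ≠ 0
        then (1 : ℤ) else 0)]
    have h2 : ∀ t : G, ∑ t', (rep D t : ℤ) * (rep D t' : ℤ) *
        (if q • t = 0 ∧ t - t' ∈ U ∧ t - t' ≠ 0 then (1 : ℤ) else 0)
        = ∑ u, (rep D t : ℤ) * (rep D (t - u) : ℤ) *
          (if q • t = 0 ∧ u ∈ U ∧ u ≠ 0 then (1 : ℤ) else 0) := by
      intro t
      refine Fintype.sum_equiv (Equiv.subLeft t) _ _ (fun t' => ?_)
      simp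
    rw [Finset.sum_congr rfl (fun t _ => h2 t), Finset.sum_comm]
    have h3 : ∀ u : G, ∑ t, (rep D t : ℤ) * (rep D (t - u) : ℤ) *
          (if q • t = 0 ∧ u ∈ U ∧ u ≠ 0 then (1 : ℤ) else 0)
        ≤ (if u ∈ U then (κ + 2 * n : ℤ) else 0) - (if u = 0 then (κ + 2 * n : ℤ) else 0) := by
      intro u
      by_cases hu : u ∈ U ∧ u ≠ 0
      · rw [if_pos hu.1, if_neg hu.2, sub_zero]
        have h4 : ∀ t : G, (rep D t : ℤ) * (rep D (t - u) : ℤ) *
            (if q • t = 0 ∧ u ∈ U ∧ u ≠ 0 then (1 : ℤ) else 0)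
            ≤ (if q • t = 0 then (1 : ℤ) else 0) + (if t = 0 then (n : ℤ) else 0)
              + (if t = u then (n : ℤ) else 0) := by
          intro t
          have hn0 : (0 : ℤ) ≤ n := Int.natCast_nonneg n
          have e0 : (0 : ℤ) ≤ (if t = 0 then (n : ℤ) else 0) := by split_ifs <;> simp
          have e1 : (0 : ℤ) ≤ (if t = u then (n : ℤ) else 0) := by split_ifs <;> simp
          by_cases hq : q • t = 0
          · rw [if_pos ⟨hq, hu⟩, if_pos hq, mul_one]
            by_cases ht0 : t = 0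
            · have h5 : (rep D (t - u) : ℤ) ≤ 1 := by
                have : t - u ≠ 0 := by rw [ht0, zero_sub]; simpa using hu.2
                exact_mod_cast rep_le_one' N D hD1 hD0 this
              have h6 : (rep D t : ℤ) = n := by rw [ht0, rep_zero, hDc]
              rw [h6, if_pos ht0]
              have : (0 : ℤ) ≤ (rep D (t - u) : ℤ) := Int.natCast_nonneg _
              nlinarith
            · have h5 : (rep D t : ℤ) ≤ 1 := by exact_mod_cast rep_le_one' N D hD1 hD0 ht0
              have h5' : (0 : ℤ) ≤ (rep D t : ℤ) := Int.natCast_nonneg _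
              by_cases htu : t = u
              · have h6 : (rep D (t - u) : ℤ) = n := by rw [htu, sub_self, rep_zero, hDc]
                rw [h6, if_neg ht0, if_pos htu]
                nlinarith
              · have h6 : (rep D (t - u) : ℤ) ≤ 1 := by
                  exact_mod_cast rep_le_one' N D hD1 hD0 (sub_ne_zero.mpr htu)
                have h6' : (0 : ℤ) ≤ (rep D (t - u) : ℤ) := Int.natCast_nonneg _
                rw [if_neg ht0, if_neg htu]
                nlinarith
          · rw [if_neg (fun h => hq h.1), mul_zero, if_neg hq]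
            linarith
        refine (Finset.sum_le_sum (fun t _ => h4 t)).trans ?_
        rw [Finset.sum_add_distrib, Finset.sum_add_distrib,
          Finset.sum_ite_eq' Finset.univ (0 : G), Finset.sum_ite_eq' Finset.univ u]
        have h5 : ∑ t : G, (if q • t = 0 then (1 : ℤ) else 0) = κ := by
          rw [← hκ, Finset.card_filter]; push_cast; rfl
        rw [h5]
        simp
        linarith
      · have h4 : ∀ t : G, (rep D t : ℤ) * (rep D (t - u) : ℤ) *
            (if q • t = 0 ∧ u ∈ U ∧ u ≠ 0 then (1 : ℤ) else 0) = 0 := by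
          intro t
          rw [if_neg (fun h => hu h.2), mul_zero]
        rw [Finset.sum_congr rfl (fun t _ => h4 t), Finset.sum_const_zero]
        by_cases h5 : u = 0
        · rw [if_pos h5, h5, if_pos U.zero_mem, sub_self]
        · rw [if_neg h5, if_neg (fun h => hu ⟨h, h5⟩), sub_self]
    refine (Finset.sum_le_sum (fun u _ => h3 u)).trans ?_
    rw [Finset.sum_sub_distrib, Finset.sum_ite_eq' Finset.univ (0 : G), ← Finset.sum_filter,
      Finset.sum_const, card_filter_subgroup]
    simp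
    linarith

end Sec

end Pool.Agent.H58.LL
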