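import Mathlib
import Pool.Agent.H58.LL.Gal
import Pool.Agent.H58.LL.Sec

set_option autoImplicit false
set_option linter.unusedSectionVars false

namespace Pool.Agent.H58.LL

open Finset Pool.Agent.H56.RDS

/-- The local inequality on a two-dimensional space over `ZMod p`. -/
def LOC : Prop :=
  ∀ (p : ℕ) [Fact p.Prime], 3 ≤ p → ∀ (V : Type) [AddCommGroup V] [Fintype V] [DecidableEq V]
    [Module (ZMod p) V], Fintype.card V = p ^ 2 → ∀ m : V → V → ℕ,
    (∀ x, m x 0 = 0) → (∀ x v, m x (-v) = m x v) →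
    (∀ x, ∑ v, m x v = 0 ∨ ∑ v, m x v = 2) →
    (∀ (k : ZMod p) (x : V), ∑ v, m (x - k • v) v = ∑ v, m x v) →
    ∀ (y : ℕ) (A Q : ℤ), A = ∑ x, ∑ v, (m x v : ℤ) → Q = ∑ v, (∑ x, (m x v : ℤ)) ^ 2 →
    ∀ lam : ℤ, ((p = 3 ∧ lam = 1) ∨ (5 ≤ p ∧ lam = (p : ℤ) - 1)) →
    4 * ((p : ℤ) + 1) * ((p : ℤ) - 2) * A ≤ 4 * ((p : ℤ) + 1) * (Q - 2 * A)
      + lam * ((p : ℤ) ^ 2 + p + 2) * ((A + y - (p : ℤ) ^ 2) ^ 2 - (p : ℤ) ^ 2 + 2 * p * y)

section Asm

variable {G : Type} [AddCommGroup G] [Fintype G] [DecidableEq G]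

/-- Sum over a coset of the fibre sizes. -/
lemma sum_fibre {ι : Type} (U : AddSubgroup G) [Fintype U] (T : Finset ι) (s : ι → G) (g : G)
    [DecidablePred (· ∈ U)] :
    ∑ x : U, (T.filter (fun y => s y = g + x)).card = (T.filter (fun y => s y - g ∈ U)).card := by
  classical
  have h1 : ∀ x : U, (T.filter (fun y => s y = g + x)).card
      = ((T.filter (fun y => s y - g ∈ U)).filter (fun y => s y - g = x)).card := by
    intro x
    congr 1
    ext y
    simp only [Finset.mem_filter]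
    constructor
    · rintro ⟨h2, h3⟩
      have : s y - g = x := by rw [h3]; abel
      exact ⟨⟨h2, by rw [this]; exact x.2⟩, this⟩
    · rintro ⟨⟨h2, _⟩, h3⟩
      exact ⟨h2, by rw [← h3]; abel⟩
  rw [Finset.sum_congr rfl (fun x _ => h1 x)]
  rw [Finset.card_eq_sum_card_fiberwise (f := fun y => s y - g)
    (t := Finset.univ.filter (· ∈ U)) (fun y hy => by
      simp only [Finset.coe_filter, Finset.mem_univ, true_and, Set.mem_setOf_eq]
      exact (Finset.mem_filter.mp hy).2)]
  symm
  refine Finset.sum_bij' (fun a ha => (⟨a, (Finset.mem_filter.mp ha).2⟩ : U))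
    (fun x _ => (x : G)) ?_ ?_ ?_ ?_ ?_
  · intro a _; exact Finset.mem_univ _
  · intro x _; exact Finset.mem_filter.mpr ⟨Finset.mem_univ _, x.2⟩
  · intro a _; rfl
  · intro x _; rfl
  · intro a _; rfl

/-- Sum over the nonzero values in `U`. -/
lemma sum_values {ι : Type} (U : AddSubgroup G) [Fintype U] (T : Finset ι) (f : ι → G)
    (hf : ∀ y, f y ∈ U) :
    ∑ v : U, (if v = 0 then 0 else (T.filter (fun y => f y = (v : G))).card)
      = (T.filter (fun y => f y ≠ 0)).card := by
  classical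
  have h1 : ∀ v : U, (if v = 0 then 0 else (T.filter (fun y => f y = (v : G))).card)
      = ((T.filter (fun y => f y ≠ 0)).filter (fun y => f y = (v : G))).card := by
    intro v
    by_cases hv : v = 0
    · rw [if_pos hv, hv]
      symm
      rw [Finset.card_eq_zero, Finset.filter_eq_empty_iff]
      intro y hy
      simpa using (Finset.mem_filter.mp hy).2
    · rw [if_neg hv]
      congr 1
      ext y
      simp only [Finset.mem_filter]
      constructor
      · rintro ⟨h2, h3⟩
        refine ⟨⟨h2, ?_⟩, h3⟩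
        rw [h3]
        intro h4
        exact hv (Subtype.ext h4)
      · rintro ⟨⟨h2, _⟩, h3⟩
        exact ⟨h2, h3⟩
  rw [Finset.sum_congr rfl (fun v _ => h1 v)]
  rw [Finset.card_eq_sum_card_fiberwise (f := fun y => (⟨f y, hf y⟩ : U))
    (t := Finset.univ) (fun y _ => by simp)]
  refine Finset.sum_congr rfl (fun v _ => ?_)
  congr 1
  ext y
  simp only [Finset.mem_filter, Subtype.ext_iff]

variable {p k b : ℕ} [hp : Fact p.Prime]
variable (N : AddSubgroup G) (D : Finset G)
  (hD1 : ∀ g : G, g ∉ N → ((D ×ˢ D).filter (fun x => x.1 - x.2 = g)).card = 1)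
  (hD0 : ∀ g : G, g ∈ N → g ≠ 0 → ((D ×ˢ D).filter (fun x => x.1 - x.2 = g)).card = 0)

include hD1 hD0

/-- The local inequality at one coset. -/
lemma local_ineq (hloc : LOC) (hp2 : p ≠ 2) (hk : 1 ≤ k)
    (hN : Nat.card N = p ^ b) (hDc : D.card = p ^ b)
    (hexp : ∀ g : G, p ^ (k + 1) • g = 0) (U : AddSubgroup G) [DecidablePred (· ∈ U)] [Fintype U]
    (hmem : ∀ g : G, p ^ k • g ∈ U) (hsurj : ∀ u ∈ U, ∃ g : G, p ^ k • g = u)
    (hUc : Nat.card U = p ^ 2) (g₀ : G) (lam : ℤ)
    (hlam : (p = 3 ∧ lam = 1) ∨ (5 ≤ p ∧ lam = (p : ℤ) - 1)) :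
    4 * ((p : ℤ) + 1) * ((p : ℤ) - 2) *
        ((((D ×ˢ D).filter (fun x => p ^ k • (x.1 - x.2) ≠ 0)).filter
          (fun x => x.1 + x.2 - g₀ ∈ U)).card : ℤ)
      ≤ 4 * ((p : ℤ) + 1) * ((∑ v : U, (if v = 0 then 0 else
          ((((D ×ˢ D).filter (fun x => p ^ k • (x.1 - x.2) = (v : G))).filter
            (fun x => x.1 + x.2 - g₀ ∈ U)).card : ℤ) ^ 2))
          - 2 * ((((D ×ˢ D).filter (fun x => p ^ k • (x.1 - x.2) ≠ 0)).filter
          (fun x => x.1 + x.2 - g₀ ∈ U)).card : ℤ))
      + lam * ((p : ℤ) ^ 2 + p + 2) *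
        ((((((D ×ˢ D).filter (fun x => x.1 + x.2 - g₀ ∈ U)).card : ℤ)) - (p : ℤ) ^ 2) ^ 2
          - (p : ℤ) ^ 2 + 2 * p *
          ((((D ×ˢ D).filter (fun x => p ^ k • (x.1 - x.2) = 0)).filter
          (fun x => x.1 + x.2 - g₀ ∈ U)).card : ℤ)) := by
  classical
  have hpp := hp.out
  have hp3 : 3 ≤ p := by
    have := hpp.two_le
    omega
  have hpU : ∀ x : U, p • x = 0 := by
    intro x
    apply Subtype.ext
    obtain ⟨g, hg⟩ := hsurj x x.2
    have : ((p • x : U) : G) = p • (x : G) := rfl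
    rw [this, ← hg, ← mul_nsmul', ← pow_succ', hexp]
    rfl
  let _ : Module (ZMod p) U := AddCommGroup.zmodModule hpU
  have hcardU : Fintype.card U = p ^ 2 := by rw [← Nat.card_eq_fintype_card, hUc]
  set m : U → U → ℕ := fun x v => if v = 0 then 0 else
    ((D ×ˢ D).filter (fun y => y.1 + y.2 = g₀ + x ∧ p ^ k • (y.1 - y.2) = (v : G))).card with hm
  have h0 : ∀ x, m x 0 = 0 := fun x => by simp [hm]
  have h1 : ∀ x v, m x (-v) = m x v := by
    intro x v
    simp only [hm, neg_eq_zero]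
    by_cases hv : v = 0
    · rw [if_pos hv, if_pos hv]
    · rw [if_neg hv, if_neg hv]
      refine Finset.card_bij' (fun y _ => (y.2, y.1)) (fun y _ => (y.2, y.1)) ?_ ?_ ?_ ?_
      · intro y hy
        simp only [Finset.mem_filter, Finset.mem_product] at hy ⊢
        refine ⟨⟨hy.1.2, hy.1.1⟩, by rw [add_comm]; exact hy.2.1, ?_⟩
        have : y.2 - y.1 = - (y.1 - y.2) := by abel
        rw [this, smul_neg, hy.2.2]; simp
      · intro y hy
        simp only [Finset.mem_filter, Finset.mem_product] at hy ⊢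
        refine ⟨⟨hy.1.2, hy.1.1⟩, by rw [add_comm]; exact hy.2.1, ?_⟩
        have : y.2 - y.1 = - (y.1 - y.2) := by abel
        rw [this, smul_neg, hy.2.2]; simp
      · intro y _; rfl
      · intro y _; rfl
  have hsum : ∀ x : U, ∑ v, m x v = (((D ×ˢ D).filter (fun y => y.1 + y.2 = g₀ + x)).filter
      (fun y => p ^ k • (y.1 - y.2) ≠ 0)).card := by
    intro x
    rw [← sum_values U ((D ×ˢ D).filter (fun y => y.1 + y.2 = g₀ + x))
      (fun y => p ^ k • (y.1 - y.2)) (fun y => hmem _)]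
    refine Finset.sum_congr rfl (fun v _ => ?_)
    simp only [hm, Finset.filter_filter]
  have h2 : ∀ x, ∑ v, m x v = 0 ∨ ∑ v, m x v = 2 := by
    intro x
    rw [hsum x]
    set S := ((D ×ˢ D).filter (fun y => y.1 + y.2 = g₀ + x)).filter
      (fun y => p ^ k • (y.1 - y.2) ≠ 0) with hS
    rcases S.eq_empty_or_nonempty with he | ⟨⟨a, c⟩, hac⟩
    · left; rw [he]; rfl
    · right
      have hac' := hac
      simp only [hS, Finset.mem_filter, Finset.mem_product] at hac'
      obtain ⟨⟨⟨ha, hc⟩, hs⟩, hne⟩ := hac'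
      have hne' : a ≠ c := by
        rintro rfl
        apply hne
        rw [sub_self, nsmul_zero]
      have : S = {(a, c), (c, a)} := by
        ext ⟨a', c'⟩
        simp only [Finset.mem_insert, Finset.mem_singleton, Prod.mk.injEq]
        constructor
        · intro h
          simp only [hS, Finset.mem_filter, Finset.mem_product] at h
          obtain ⟨⟨⟨ha', hc'⟩, hs'⟩, _⟩ := h
          exact sum_unique N D hD1 hD0 ha' hc' ha hc (by rw [hs', hs])
        · rintro (⟨rfl, rfl⟩ | ⟨rfl, rfl⟩)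
          · exact hac
          · simp only [hS, Finset.mem_filter, Finset.mem_product]
            refine ⟨⟨⟨hc, ha⟩, by rw [add_comm]; exact hs⟩, ?_⟩
            intro h
            apply hne
            have e : c' - a' = - (a' - c') := by abel
            rw [e, smul_neg, h, neg_zero]
      rw [this, Finset.card_pair]
      intro h
      exact hne' (Prod.mk.inj h).1
  have h3 : ∀ (κ : ZMod p) (x : U), ∑ v, m (x - κ • v) v = ∑ v, m x v := by
    intro κ x
    set j : ℕ := κ.val with hj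
    have hκ : ∀ v : U, κ • v = j • v := by
      intro v
      have e1 : ((j : ℕ) : ZMod p) = κ := ZMod.natCast_zmod_val κ
      rw [← e1, Nat.cast_smul_eq_nsmul]
    have e1 : ∀ v : U, m (x - κ • v) v = if v = 0 then 0 else
        (((D ×ˢ D).filter (fun y => y.1 + y.2 + j • (p ^ k • (y.1 - y.2)) = g₀ + x)).filter
          (fun y => p ^ k • (y.1 - y.2) = (v : G))).card := by
      intro v
      simp only [hm]
      by_cases hv : v = 0
      · rw [if_pos hv, if_pos hv]
      · rw [if_neg hv, if_neg hv, Finset.filter_filter]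
        congr 1
        ext y
        simp only [Finset.mem_filter]
        constructor
        · rintro ⟨h4, h5, h6⟩
          refine ⟨h4, ?_, h6⟩
          rw [h5, h6, hκ]
          push_cast
          abel
        · rintro ⟨h4, h5, h6⟩
          refine ⟨h4, ?_, h6⟩
          rw [h6] at h5
          rw [hκ]
          push_cast
          rw [← add_sub_assoc, ← h5]
          abel
    rw [Finset.sum_congr rfl (fun v _ => e1 v),
      sum_values U ((D ×ˢ D).filter (fun y => y.1 + y.2 + j • (p ^ k • (y.1 - y.2)) = g₀ + x))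
        (fun y => p ^ k • (y.1 - y.2)) (fun y => hmem _), hsum x]
    -- use the Galois identity and remove the pairs with the same image
    have e2 := gal N D hD1 hD0 hp2 hk hN hDc hexp j (g₀ + x)
    have e3 : ∀ (R : Finset (G × G)), (R.filter (fun y => p ^ k • (y.1 - y.2) ≠ 0)).card
        = R.card - (R.filter (fun y => p ^ k • (y.1 - y.2) = 0)).card := by
      intro R
      have := Finset.card_filter_add_card_filter_not (s := R) (fun y => p ^ k • (y.1 - y.2) = 0)
      simp only [ne_eq]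
      omega
    rw [e3, e3, e2]
    congr 1
    rw [Finset.filter_filter, Finset.filter_filter]
    congr 1
    ext y
    simp only [Finset.mem_filter]
    constructor
    · rintro ⟨h4, h5, h6⟩
      rw [h6, nsmul_zero, add_zero] at h5
      exact ⟨h4, h5, h6⟩
    · rintro ⟨h4, h5, h6⟩
      refine ⟨h4, ?_, h6⟩
      rw [h6, nsmul_zero, add_zero]
      exact h5
  -- the sums over the coset
  have hA : ((((D ×ˢ D).filter (fun x => p ^ k • (x.1 - x.2) ≠ 0)).filter
          (fun x => x.1 + x.2 - g₀ ∈ U)).card : ℤ) = ∑ x, ∑ v, (m x v : ℤ) := by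
    have e1 : ∑ x, ∑ v, (m x v : ℤ) = ((∑ x, ∑ v, m x v : ℕ) : ℤ) := by push_cast; rfl
    rw [e1, Finset.sum_congr rfl (fun x _ => hsum x)]
    rw [← sum_fibre U ((D ×ˢ D).filter (fun x => p ^ k • (x.1 - x.2) ≠ 0)) (fun y => y.1 + y.2) g₀]
    congr 1
    refine Finset.sum_congr rfl (fun x _ => ?_)
    rw [Finset.filter_filter, Finset.filter_filter]
    congr 1
    ext y
    simp only [Finset.mem_filter]
    tauto
  have hQ : (∑ v : U, (if v = 0 then 0 else
          ((((D ×ˢ D).filter (fun x => p ^ k • (x.1 - x.2) = (v : G))).filter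
            (fun x => x.1 + x.2 - g₀ ∈ U)).card : ℤ) ^ 2)) = ∑ v, (∑ x, (m x v : ℤ)) ^ 2 := by
    refine Finset.sum_congr rfl (fun v _ => ?_)
    by_cases hv : v = 0
    · rw [if_pos hv]
      simp [hm, hv]
    · rw [if_neg hv]
      congr 1
      have e1 : ∑ x, (m x v : ℤ) = ((∑ x, m x v : ℕ) : ℤ) := by push_cast; rfl
      rw [e1, ← sum_fibre U ((D ×ˢ D).filter (fun x => p ^ k • (x.1 - x.2) = (v : G)))
        (fun y => y.1 + y.2) g₀]
      congr 1
      refine Finset.sum_congr rfl (fun x _ => ?_)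
      simp only [hm]
      rw [if_neg hv, Finset.filter_filter]
      congr 1
      ext y
      simp only [Finset.mem_filter]
      tauto
  have hR : (((D ×ˢ D).filter (fun x => x.1 + x.2 - g₀ ∈ U)).card : ℤ)
      = ((((D ×ˢ D).filter (fun x => p ^ k • (x.1 - x.2) ≠ 0)).filter
          (fun x => x.1 + x.2 - g₀ ∈ U)).card : ℤ)
        + ((((D ×ˢ D).filter (fun x => p ^ k • (x.1 - x.2) = 0)).filter
          (fun x => x.1 + x.2 - g₀ ∈ U)).card : ℤ) := by
    rw [← Nat.cast_add]
    congr 1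
    have e1 := Finset.card_filter_add_card_filter_not
      (s := (D ×ˢ D).filter (fun x => x.1 + x.2 - g₀ ∈ U)) (fun y => p ^ k • (y.1 - y.2) = 0)
    have e2 : ∀ (P : G × G → Prop) [DecidablePred P], ((D ×ˢ D).filter P).filter
        (fun x => x.1 + x.2 - g₀ ∈ U) = ((D ×ˢ D).filter (fun x => x.1 + x.2 - g₀ ∈ U)).filter P := by
      intro P _
      rw [Finset.filter_filter, Finset.filter_filter]
      congr 1
      ext y
      tauto
    rw [e2, e2]
    simp only [ne_eq]
    omega
  have key := hloc p hp3 U hcardU m h0 h1 h2 h3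
    ((((D ×ˢ D).filter (fun x => p ^ k • (x.1 - x.2) = 0)).filter
          (fun x => x.1 + x.2 - g₀ ∈ U)).card)
    _ _ hA hQ lam hlam
  rw [hR]
  exact key

end Asm

end Pool.Agent.H58.LL
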