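import Mathlib
import Pool.Agent.H58.LL.Asm

set_option autoImplicit false
set_option linter.unusedSectionVars false

namespace Pool.Agent.H58.LL

open Finset Pool.Agent.H56.RDS

section Fin

variable {G : Type} [AddCommGroup G] [Fintype G] [DecidableEq G]

/-- Orders of kernel and image of the multiplication by `q`. -/
lemma card_ker (q : ℕ) (U : AddSubgroup G) [DecidablePred (· ∈ U)]
    (hmem : ∀ g : G, q • g ∈ U) (hsurj : ∀ u ∈ U, ∃ g : G, q • g = u) :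
    Nat.card U * (Finset.univ.filter (fun t : G => q • t = 0)).card = Fintype.card G := by
  rw [← Finset.card_univ, Finset.card_eq_sum_card_fiberwise (f := fun g : G => q • g)
    (s := Finset.univ) (t := Finset.univ.filter (· ∈ U)) (fun g _ => by simp [hmem g])]
  rw [Finset.sum_congr rfl (g := fun _ => (Finset.univ.filter (fun t : G => q • t = 0)).card)
    (fun u hu => ?_), Finset.sum_const, card_filter_subgroup, smul_eq_mul]
  obtain ⟨g1, hg1⟩ := hsurj u (Finset.mem_filter.mp hu).2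
  refine Finset.card_bij' (fun g _ => g - g1) (fun t _ => t + g1) ?_ ?_ ?_ ?_
  · intro g hg
    simp only [Finset.mem_filter, Finset.mem_univ, true_and] at hg ⊢
    rw [nsmul_sub, hg, hg1, sub_self]
  · intro t ht
    simp only [Finset.mem_filter, Finset.mem_univ, true_and] at ht ⊢
    rw [nsmul_add, ht, hg1, zero_add]
  · intro g _; simp
  · intro t _; simp

variable {p k b : ℕ} [hp : Fact p.Prime]
variable (N : AddSubgroup G) (D : Finset G)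
  (hD1 : ∀ g : G, g ∉ N → ((D ×ˢ D).filter (fun x => x.1 - x.2 = g)).card = 1)
  (hD0 : ∀ g : G, g ∈ N → g ≠ 0 → ((D ×ˢ D).filter (fun x => x.1 - x.2 = g)).card = 0)

/-- The final arithmetic. -/
lemma arith (p n κ P Y E F lam : ℤ) (hn : 0 < n) (h1 : p ^ 2 * n ≤ κ)
    (hlam : (p = 3 ∧ lam = 1) ∨ (5 ≤ p ∧ lam = p - 1))
    (hPY : P + Y = p ^ 2 * κ) (hY : Y ≤ n + κ) 
    (hE : E ≤ p ^ 2 * (p ^ 2 * κ) + p ^ 2 * κ)
    (hF : F ≤ P + (p ^ 2 - 1) * (κ + 2 * n))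
    (hmain : 4 * (p + 1) * (p - 2) * P ≤ 4 * (p + 1) * (F - 2 * P)
      + lam * (p ^ 2 + p + 2) * (E - p ^ 2 * (p ^ 2 * κ) - p ^ 2 * κ + 2 * p * Y)) : False := by
  have hP : P = p ^ 2 * κ - Y := by linarith
  subst hP
  rcases hlam with ⟨rfl, rfl⟩ | ⟨h5, rfl⟩
  · nlinarith
  · obtain ⟨t, rfl⟩ : ∃ t, p = 5 + t := ⟨p - 5, by ring⟩
    have ht : 0 ≤ t := by linarith
    have a1 : 0 ≤ 4 * ((5 + t) + 1) := by linarith
    have a2 : 4 * ((5 + t) + 1) * (F - 2 * ((5 + t) ^ 2 * κ - Y))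
        ≤ 4 * ((5 + t) + 1) * ((2 * (5 + t) ^ 2 - 2) * n + Y - κ) := by
      apply mul_le_mul_of_nonneg_left _ a1
      linarith
    have a3 : 0 ≤ ((5 + t) - 1) * ((5 + t) ^ 2 + (5 + t) + 2) := by
      have e : (5 + t) - 1 = 4 + t := by ring
      rw [e]; positivity
    have a4 : ((5 + t) - 1) * ((5 + t) ^ 2 + (5 + t) + 2) *
        (E - (5 + t) ^ 2 * ((5 + t) ^ 2 * κ) - (5 + t) ^ 2 * κ + 2 * (5 + t) * Y)
        ≤ ((5 + t) - 1) * ((5 + t) ^ 2 + (5 + t) + 2) * (2 * (5 + t) * Y) := by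
      apply mul_le_mul_of_nonneg_left _ a3
      linarith
    -- collect the coefficient of Y
    have a5 : 0 ≤ 4 * ((5 + t) + 1) + ((5 + t) - 1) * ((5 + t) ^ 2 + (5 + t) + 2) * (2 * (5 + t))
        + 4 * ((5 + t) + 1) * ((5 + t) - 2) := by
      have e : (5 + t) - 1 = 4 + t := by ring
      have e' : (5 + t) - 2 = 3 + t := by ring
      rw [e, e']; positivity
    have a6 := mul_le_mul_of_nonneg_left hY a5
    have a7 : 0 ≤ (t * κ) := mul_nonneg ht (le_trans (by positivity) h1)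
    have hκ : 0 < κ := lt_of_lt_of_le (by positivity) h1
    -- now a polynomial inequality in t with κ ≥ (5+t)^2 n
    have a8 : 0 ≤ (κ - (5 + t) ^ 2 * n) := by linarith
    have c1 : (0 : ℤ) ≤ 2 * (5 + t) ^ 4 - 4 * (5 + t) ^ 3 - 14 * (5 + t) ^ 2 + 8 * (5 + t) + 8 := by
      have : 2 * (5 + t) ^ 4 - 4 * (5 + t) ^ 3 - 14 * (5 + t) ^ 2 + 8 * (5 + t) + 8
          = 2 * t ^ 4 + 36 * t ^ 3 + 226 * t ^ 2 + 568 * t + 448 := by ring
      rw [this]; positivity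
    have a9 := mul_nonneg c1 a8
    have a10 : 0 < (5 + t) ^ 2 * (2 * (5 + t) ^ 4 - 4 * (5 + t) ^ 3 - 14 * (5 + t) ^ 2 + 8 * (5 + t) + 8)
        - (2 * (5 + t) ^ 4 + 8 * (5 + t) ^ 3 + 14 * (5 + t) ^ 2 - 12 * (5 + t) - 12) := by
      have : (5 + t) ^ 2 * (2 * (5 + t) ^ 4 - 4 * (5 + t) ^ 3 - 14 * (5 + t) ^ 2 + 8 * (5 + t) + 8)
        - (2 * (5 + t) ^ 4 + 8 * (5 + t) ^ 3 + 14 * (5 + t) ^ 2 - 12 * (5 + t) - 12)
        = 2 * t ^ 6 + 56 * t ^ 5 + 634 * t ^ 4 + 3680 * t ^ 3 + 11344 * t ^ 2 + 16952 * t + 8672 := by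
        ring
      rw [this]; positivity
    have a11 := mul_pos a10 hn
    nlinarith

include hD1 hD0

/-- The second moment, summed by values. -/
lemma second_sum {n κ : ℕ} (hDc : D.card = n) (q : ℕ) (U : AddSubgroup G) [DecidablePred (· ∈ U)]
    [Fintype U] (hqU : ∀ u ∈ U, q • u = 0) (hmem : ∀ g : G, q • g ∈ U)
    (h2U : ∀ u ∈ U, 2 • u = 0 → u = 0)
    (hκ : (Finset.univ.filter (fun t : G => q • t = 0)).card = κ) :
    ∑ g : G, ∑ v : U, (if v = 0 then 0 else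
        ((((D ×ˢ D).filter (fun x => q • (x.1 - x.2) = (v : G))).filter
          (fun x => x.1 + x.2 - g ∈ U)).card : ℤ) ^ 2)
      ≤ (Nat.card U : ℤ) * ((((D ×ˢ D).filter (fun x => q • (x.1 - x.2) ≠ 0)).card : ℤ)
        + ((Nat.card U : ℤ) - 1) * (κ + 2 * n)) := by
  classical
  rw [Finset.sum_comm]
  have h1 : ∀ v : U, ∑ g : G, (if v = 0 then 0 else
        ((((D ×ˢ D).filter (fun x => q • (x.1 - x.2) = (v : G))).filter
          (fun x => x.1 + x.2 - g ∈ U)).card : ℤ) ^ 2)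
      = (Nat.card U : ℤ) * ((if v = 0 then 0 else
        ((((D ×ˢ D) ×ˢ (D ×ˢ D)).filter (fun x => (x.1.1 + x.1.2) - (x.2.1 + x.2.2) ∈ U ∧
        q • (x.1.1 - x.1.2) = q • (x.2.1 - x.2.2))).filter
          (fun x => q • (x.1.1 - x.1.2) = (v : G))).card : ℕ) : ℤ) := by
    intro v
    by_cases hv : v = 0
    · simp [hv]
    · simp only [if_neg hv]
      rw [sum_sq_coset U ((D ×ˢ D).filter (fun x => q • (x.1 - x.2) = (v : G)))
        (fun x => x.1 + x.2)]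
      congr 3
      ext x
      simp only [Finset.mem_filter, Finset.mem_product]
      constructor
      · rintro ⟨⟨⟨⟨h2, h3⟩, h4⟩, ⟨h5, h6⟩, h7⟩, h8⟩
        exact ⟨⟨⟨⟨h2, h3⟩, h5, h6⟩, h8, by rw [h4, h7]⟩, h4⟩
      · rintro ⟨⟨⟨⟨h2, h3⟩, h5, h6⟩, h8, h9⟩, h4⟩
        exact ⟨⟨⟨⟨h2, h3⟩, h4⟩, ⟨h5, h6⟩, by rw [← h9, h4]⟩, h8⟩
  rw [Finset.sum_congr rfl (fun v _ => h1 v), ← Finset.mul_sum]
  apply mul_le_mul_of_nonneg_left _ (Int.natCast_nonneg _)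
  have h2 := second N D n hD1 hD0 hDc q κ U hqU hmem h2U hκ
  refine le_trans (le_of_eq ?_) h2
  have h3 := sum_values U (((D ×ˢ D) ×ˢ (D ×ˢ D)).filter
    (fun x => (x.1.1 + x.1.2) - (x.2.1 + x.2.2) ∈ U ∧
        q • (x.1.1 - x.1.2) = q • (x.2.1 - x.2.2)))
    (fun x => q • (x.1.1 - x.1.2)) (fun x => hmem _)
  have h4 : (((D ×ˢ D) ×ˢ (D ×ˢ D)).filter (fun x => (x.1.1 + x.1.2) - (x.2.1 + x.2.2) ∈ U ∧
        q • (x.1.1 - x.1.2) = q • (x.2.1 - x.2.2) ∧ q • (x.1.1 - x.1.2) ≠ 0))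
      = (((D ×ˢ D) ×ˢ (D ×ˢ D)).filter (fun x => (x.1.1 + x.1.2) - (x.2.1 + x.2.2) ∈ U ∧
        q • (x.1.1 - x.1.2) = q • (x.2.1 - x.2.2))).filter
        (fun x => q • (x.1.1 - x.1.2) ≠ 0) := by
    rw [Finset.filter_filter]
    congr 1
    ext x
    tauto
  rw [h4, ← h3]
  push_cast
  rfl

/-- The subgroup `p ^ k • G` cannot have order `p ^ 2`, if `b ≥ 4`. -/
theorem card_ne_sq (hloc : LOC) (hp2 : p ≠ 2) (hk : 1 ≤ k) (hb : 4 ≤ b)
    (hG : Fintype.card G = p ^ (2 * b))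
    (hN : Nat.card N = p ^ b) (hDc : D.card = p ^ b)
    (hexp : ∀ g : G, p ^ (k + 1) • g = 0) (U : AddSubgroup G)
    (hmem : ∀ g : G, p ^ k • g ∈ U) (hsurj : ∀ u ∈ U, ∃ g : G, p ^ k • g = u)
    (hUc : Nat.card U = p ^ 2) : False := by
  classical
  have hpp := hp.out
  have hp3 : 3 ≤ p := by
    have := hpp.two_le
    omega
  set n : ℕ := p ^ b with hn
  set q : ℕ := p ^ k with hq
  have hG2 : Fintype.card G = n ^ 2 := by rw [hG, hn, ← pow_mul, mul_comm b 2]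
  set κ : ℕ := (Finset.univ.filter (fun t : G => q • t = 0)).card with hκ
  have hκc : p ^ 2 * κ = n ^ 2 := by
    rw [← hG2, ← card_ker q U hmem hsurj, hUc]
  have hpU : ∀ u ∈ U, p • u = 0 := by
    intro u hu
    obtain ⟨g, hg⟩ := hsurj u hu
    rw [← hg, ← mul_nsmul', ← pow_succ', hexp]
  have hqU : ∀ u ∈ U, q • u = 0 := by
    intro u hu
    obtain ⟨m, rfl⟩ : ∃ m, k = m + 1 := ⟨k - 1, by omega⟩
    rw [hq, pow_succ, mul_nsmul', hpU u hu, nsmul_zero]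
  have h2U : ∀ u ∈ U, 2 • u = 0 → u = 0 := by
    intro u hu h2
    have hodd : Nat.Coprime 2 p := by
      rw [Nat.coprime_primes Nat.prime_two hpp]
      exact fun h => hp2 h.symm
    have h3 : addOrderOf u ∣ Nat.gcd 2 p :=
      Nat.dvd_gcd (addOrderOf_dvd_of_nsmul_eq_zero h2) (addOrderOf_dvd_of_nsmul_eq_zero (hpU u hu))
    rw [hodd] at h3
    exact AddMonoid.addOrderOf_eq_one_iff.mp (Nat.dvd_one.mp h3)
  -- choose the multiplier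
  obtain ⟨lam, hlam⟩ : ∃ lam : ℤ, (p = 3 ∧ lam = 1) ∨ (5 ≤ p ∧ lam = (p : ℤ) - 1) := by
    by_cases h : p = 3
    · exact ⟨1, Or.inl ⟨h, rfl⟩⟩
    · refine ⟨(p : ℤ) - 1, Or.inr ⟨?_, rfl⟩⟩
      by_contra h5
      have h4 : p = 4 := by omega
      rw [h4] at hpp
      exact absurd hpp (by norm_num)
  set Tn := (D ×ˢ D).filter (fun x => q • (x.1 - x.2) ≠ 0) with hTn
  set T0 := (D ×ˢ D).filter (fun x => q • (x.1 - x.2) = 0) with hT0
  set a : G → ℤ := fun g => ((Tn.filter (fun x => x.1 + x.2 - g ∈ U)).card : ℤ) with ha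
  set y : G → ℤ := fun g => ((T0.filter (fun x => x.1 + x.2 - g ∈ U)).card : ℤ) with hy
  set R : G → ℤ := fun g => (((D ×ˢ D).filter (fun x => x.1 + x.2 - g ∈ U)).card : ℤ) with hR
  set Q : G → ℤ := fun g => ∑ v : U, (if v = 0 then 0 else
        ((((D ×ˢ D).filter (fun x => q • (x.1 - x.2) = (v : G))).filter
          (fun x => x.1 + x.2 - g ∈ U)).card : ℤ) ^ 2) with hQ
  have hl : ∀ g : G, 4 * ((p : ℤ) + 1) * ((p : ℤ) - 2) * a g
      ≤ 4 * ((p : ℤ) + 1) * (Q g - 2 * a g) + lam * ((p : ℤ) ^ 2 + p + 2) *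
        ((R g - (p : ℤ) ^ 2) ^ 2 - (p : ℤ) ^ 2 + 2 * p * y g) := fun g =>
    local_ineq N D hD1 hD0 hloc hp2 hk hN hDc hexp U hmem hsurj hUc g lam hlam
  have hsum := Finset.sum_le_sum (fun g (_ : g ∈ Finset.univ) => hl g)
  have hUz : (Nat.card U : ℤ) = (p : ℤ) ^ 2 := by rw [hUc]; push_cast; rfl
  have hDD : ((D ×ˢ D).card : ℤ) = (n : ℤ) ^ 2 := by
    rw [Finset.card_product, hDc]; push_cast; ring
  have hsa : ∑ g, a g = (p : ℤ) ^ 2 * Tn.card := by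
    rw [← hUz]; exact sum_coset U Tn (fun x => x.1 + x.2)
  have hsy : ∑ g, y g = (p : ℤ) ^ 2 * T0.card := by
    rw [← hUz]; exact sum_coset U T0 (fun x => x.1 + x.2)
  have hsR : ∑ g, R g = (p : ℤ) ^ 2 * (n : ℤ) ^ 2 := by
    rw [← hUz, ← hDD]; exact sum_coset U (D ×ˢ D) (fun x => x.1 + x.2)
  set E : ℤ := ((((D ×ˢ D) ×ˢ (D ×ˢ D)).filter
      (fun x => (x.1.1 + x.1.2) - (x.2.1 + x.2.2) ∈ U)).card : ℤ) with hEdef
  have hsR2 : ∑ g, R g ^ 2 = (p : ℤ) ^ 2 * E := by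
    rw [← hUz]; exact sum_sq_coset U (D ×ˢ D) (fun x => x.1 + x.2)
  have hsQ : ∑ g, Q g ≤ (p : ℤ) ^ 2 * (Tn.card + ((p : ℤ) ^ 2 - 1) * (κ + 2 * n)) := by
    have := second_sum N D hD1 hD0 (n := n) (κ := κ) hDc q U hqU hmem h2U rfl
    rw [hUz] at this
    exact this
  have hE : E ≤ (p : ℤ) ^ 2 * (n : ℤ) ^ 2 + (n : ℤ) ^ 2 := by
    have := energy N D n hD1 hD0 U hDc hG2 hN
    rw [hUz] at this
    exact this
  have hPY : (Tn.card : ℤ) + T0.card = (n : ℤ) ^ 2 := by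
    rw [← hDD]
    have := Finset.card_filter_add_card_filter_not (s := D ×ˢ D) (fun x => q • (x.1 - x.2) = 0)
    rw [hTn, hT0, ← this]
    push_cast
    simp only [ne_eq]
    ring
  have hY : (T0.card : ℤ) ≤ n + κ := count_same N D n hD1 hD0 hDc q κ rfl
  have hκz : (n : ℤ) ^ 2 = (p : ℤ) ^ 2 * κ := by rw [← Nat.cast_pow n, ← hκc]; push_cast; ring
  have hn0 : (0 : ℤ) < n := by
    have : 0 < n := pow_pos hpp.pos _
    exact_mod_cast this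
  have hp0 : (0 : ℤ) < (p : ℤ) ^ 2 := by
    have : 0 < p ^ 2 := pow_pos hpp.pos _
    exact_mod_cast this
  have hκn : (p : ℤ) ^ 2 * n ≤ κ := by
    have h1 : p ^ 4 ≤ n := Nat.pow_le_pow_right hpp.pos hb
    have h1' : (p : ℤ) ^ 4 ≤ n := by exact_mod_cast h1
    have h2 : (p : ℤ) ^ 2 * ((p : ℤ) ^ 2 * n) ≤ (p : ℤ) ^ 2 * κ := by
      rw [← hκz]
      nlinarith
    exact le_of_mul_le_mul_left h2 hp0
  -- the sum of the local inequalities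
  have hmain : 4 * ((p : ℤ) + 1) * ((p : ℤ) - 2) * ((p : ℤ) ^ 2 * Tn.card)
      ≤ 4 * ((p : ℤ) + 1) * (∑ g, Q g - 2 * ((p : ℤ) ^ 2 * Tn.card))
      + lam * ((p : ℤ) ^ 2 + p + 2) * ((p : ℤ) ^ 2 * E - 2 * (p : ℤ) ^ 2 * ((p : ℤ) ^ 2 * (n : ℤ) ^ 2)
        + (n : ℤ) ^ 2 * ((p : ℤ) ^ 2) ^ 2 - (n : ℤ) ^ 2 * (p : ℤ) ^ 2
        + 2 * p * ((p : ℤ) ^ 2 * T0.card)) := by
    have hcG : ∑ _g : G, (1 : ℤ) = (n : ℤ) ^ 2 := by
      rw [Finset.sum_const, Finset.card_univ, hG2]; simp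
    have e1 : ∑ g, 4 * ((p : ℤ) + 1) * ((p : ℤ) - 2) * a g
        = 4 * ((p : ℤ) + 1) * ((p : ℤ) - 2) * ((p : ℤ) ^ 2 * Tn.card) := by
      rw [← Finset.mul_sum, hsa]
    have e2 : ∑ g, (4 * ((p : ℤ) + 1) * (Q g - 2 * a g) + lam * ((p : ℤ) ^ 2 + p + 2) *
        ((R g - (p : ℤ) ^ 2) ^ 2 - (p : ℤ) ^ 2 + 2 * p * y g))
        = 4 * ((p : ℤ) + 1) * (∑ g, Q g - 2 * ((p : ℤ) ^ 2 * Tn.card))
      + lam * ((p : ℤ) ^ 2 + p + 2) * ((p : ℤ) ^ 2 * E - 2 * (p : ℤ) ^ 2 * ((p : ℤ) ^ 2 * (n : ℤ) ^ 2)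
        + (n : ℤ) ^ 2 * ((p : ℤ) ^ 2) ^ 2 - (n : ℤ) ^ 2 * (p : ℤ) ^ 2
        + 2 * p * ((p : ℤ) ^ 2 * T0.card)) := by
      rw [← hsa, ← hsy, ← hsR, ← hsR2, ← hcG]
      simp only [Finset.mul_sum, Finset.sum_mul, ← Finset.sum_sub_distrib, ← Finset.sum_add_distrib]
      refine Finset.sum_congr rfl (fun g _ => ?_)
      ring
    rw [e1, e2] at hsum
    exact hsum
  -- divide by p ^ 2
  set F : ℤ := (Tn.card + ((p : ℤ) ^ 2 - 1) * (κ + 2 * n)) with hFdef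
  have hmain2 : 4 * ((p : ℤ) + 1) * ((p : ℤ) - 2) * Tn.card
      ≤ 4 * ((p : ℤ) + 1) * (F - 2 * Tn.card)
      + lam * ((p : ℤ) ^ 2 + p + 2) * (E - (p : ℤ) ^ 2 * ((p : ℤ) ^ 2 * κ) - (p : ℤ) ^ 2 * κ
        + 2 * p * T0.card) := by
    have h4 : (0 : ℤ) ≤ 4 * ((p : ℤ) + 1) := by positivity
    have h5 := mul_le_mul_of_nonneg_left hsQ h4
    apply le_of_mul_le_mul_left _ hp0
    rw [hκz] at hmain
    nlinarith [hmain, h5]
  refine arith (p : ℤ) n κ Tn.card T0.card E F lam hn0 hκn ?_ ?_ hY ?_ le_rfl hmain2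
  · rcases hlam with ⟨h, h'⟩ | ⟨h, h'⟩
    · exact Or.inl ⟨by rw [h]; rfl, h'⟩
    · exact Or.inr ⟨by exact_mod_cast h, h'⟩
  · rw [← hκz]; exact hPY
  · rw [← hκz]; exact hE

end Fin

end Pool.Agent.H58.LL
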