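import Mathlib
import Pool.Agent.H58.LL.Fin
import Pool.Agent.H86.LOC
import Pool.Agent.H56.RDSFinal
import Pool.Agent.H45.R3.Asm
import Pool.Agent.H45.R3.Carr
import Pool.Agent.H45.R3.Coo
import Pool.Agent.H45.R3.Ext
import Pool.Agent.H45.R3.Final
import Pool.Agent.H45.R3.Fiv
import Pool.Agent.H45.R3.Red
import Pool.Agent.H45.R3.Siz
import Pool.Agent.H15.R3.Aff
import Pool.Agent.H15.R3.Deg
import Pool.Agent.H15.R3.Four
import Pool.Agent.H15.R3.Pair
import Pool.Agent.H15.R3.Sep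
import Pool.Agent.H15.R3.Van
import Pool.Agent.H36.R3.LCom
import Pool.Agent.H36.R3.LSup
import Pool.Agent.H36.R3.Ura
import Pool.Agent.H36.R3.Val

set_option autoImplicit false

namespace Pool.Agent.H58.LL

open Pool.Agent.H56.RDS Pool.Agent.H45.R3 Pool.Agent.H15.R3 Pool.Agent.H36.R3

/-- The local inequality (proved by helper86). -/
theorem loc_holds : LOC := by
  intro p _ hp V _ _ _ _ hV m h0 h1 h2 h3 y A Q hA hQ lam hlam
  exact Pool.Agent.H86.LOC.loc hp hV m h0 h1 h2 h3 y A Q hA hQ lam hlam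

/-- The case `b ≤ 3` (proof of the team, see `CubeOrder`). -/
theorem cube :
    ∀ (p b : ℕ), p.Prime → Odd p → b ≤ 3 →
    ∀ (G : Type) [AddCommGroup G] [Fintype G] [DecidableEq G],
    Fintype.card G = p ^ (2 * b) →
    ∀ (N : AddSubgroup G), Nat.card N = p ^ b →
    ∀ (D : Finset G), D.card = p ^ b →
    (∀ g : G, g ∉ N → ((D ×ˢ D).filter (fun x => x.1 - x.2 = g)).card = 1) →
    (∀ g : G, g ∈ N → g ≠ 0 → ((D ×ˢ D).filter (fun x => x.1 - x.2 = g)).card = 0) →
    ∀ g : G, p • g = 0 := by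
  intro p b hp hodd hb G _ _ _ hG N hN D hD hD1 hD0
  have : Fact p.Prime := ⟨hp⟩
  have hVAN : VAN := van
  have hURA : URA := ura
  have hVAL : VAL := val
  have hLINE : LINE := line (lsup hURA) (lcom hVAN) ldir
  have hC1 : C1 := c1 hLINE sep
  have hFIV : FIV := fiv hVAL mom hVAN
  have hAFX : AFX := afx (aff hVAL mom pair hFIV) hVAL mom degb
  have hC2 : C2 := c2 hAFX slo (fin one)
  have hWAL : WAL := wal (carr nrm) ext
  have hB : RDSB := rdsb hC1 hC2 coo1 coo2 (gra siz) hWAL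
  refine final (rnk mpd sqm) red hB p b hb G N D ?_
  exact
    { p2 := fun h => by rw [h] at hodd; exact absurd hodd (by decide)
      cardG := hG
      cardN := hN
      cardD := hD
      rep1 := hD1
      rep0 := hD0 }

/-- The subgroup `p ^ k • G`, `k ≥ 1`, is trivial or has at least `p ^ 3` elements. -/
theorem top :
    ∀ (p b : ℕ), p.Prime → Odd p →
    ∀ (G : Type) [AddCommGroup G] [Fintype G] [DecidableEq G],
    Fintype.card G = p ^ (2 * b) →
    ∀ (N : AddSubgroup G), Nat.card N = p ^ b →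
    ∀ (D : Finset G), D.card = p ^ b →
    (∀ g : G, g ∉ N → ((D ×ˢ D).filter (fun x => x.1 - x.2 = g)).card = 1) →
    (∀ g : G, g ∈ N → g ≠ 0 → ((D ×ˢ D).filter (fun x => x.1 - x.2 = g)).card = 0) →
    ∀ k : ℕ, 1 ≤ k →
      (∀ g : G, p ^ k • g = 0) ∨
        p ^ 3 ≤ (Finset.univ.image (fun g : G => p ^ k • g)).card := by
  intro p b hp hodd G _ _ _ hG N hN D hD hD1 hD0 k hk
  classical
  by_cases hb : b ≤ 3
  · left
    intro g
    obtain ⟨m, rfl⟩ : ∃ m, k = m + 1 := ⟨k - 1, by omega⟩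
    rw [pow_succ, mul_nsmul', cube p b hp hodd hb G hG N hN D hD hD1 hD0 g, nsmul_zero]
  by_contra hcon
  push Not at hcon
  obtain ⟨⟨g₀, hg₀⟩, hlt⟩ := hcon
  have : Fact p.Prime := ⟨hp⟩
  have hp2 : p ≠ 2 := fun h => by rw [h] at hodd; exact absurd hodd (by decide)
  set A : AddSubgroup G := (nsmulAddMonoidHom (α := G) (p ^ k)).range with hA
  have hmem : ∀ g : G, p ^ k • g ∈ A := fun g => ⟨g, rfl⟩
  have hsurj : ∀ a ∈ A, ∃ g : G, p ^ k • g = a := by
    rintro a ⟨g, hg⟩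
    exact ⟨g, hg⟩
  have hcard : (Finset.univ.image (fun g : G => p ^ k • g)).card = Nat.card A := by
    rw [← card_filter_subgroup A]
    congr 1
    ext x
    simp only [Finset.mem_image, Finset.mem_univ, true_and, Finset.mem_filter]
    constructor
    · rintro ⟨g, rfl⟩
      exact hmem g
    · intro h
      exact hsurj x h
  rw [hcard] at hlt
  -- pass to the last nontrivial power
  have hexp0 : ∀ g : G, p ^ (2 * b) • g = 0 := by
    intro g
    rw [← hG]
    exact card_nsmul_eq_zero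
  have hex : ∃ l, k ≤ l ∧ ∀ g : G, p ^ (l + 1) • g = 0 := by
    refine ⟨k + 2 * b, by omega, fun g => ?_⟩
    rw [show k + 2 * b + 1 = (k + 1) + 2 * b by ring, pow_add, mul_nsmul', hexp0, nsmul_zero]
  set l := Nat.find hex with hl
  obtain ⟨hkl, hexp⟩ := Nat.find_spec hex
  rw [← hl] at hkl hexp
  set B : AddSubgroup G := (nsmulAddMonoidHom (α := G) (p ^ l)).range with hB
  have hmemB : ∀ g : G, p ^ l • g ∈ B := fun g => ⟨g, rfl⟩
  have hsurjB : ∀ a ∈ B, ∃ g : G, p ^ l • g = a := by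
    rintro a ⟨g, hg⟩
    exact ⟨g, hg⟩
  have hBA : B ≤ A := by
    rintro a ⟨g, hg⟩
    have h1 : p ^ l • g = a := hg
    obtain ⟨j, hj⟩ : ∃ j, l = k + j := ⟨l - k, by omega⟩
    refine ⟨p ^ j • g, ?_⟩
    have h2 : p ^ k • (p ^ j • g) = a := by
      rw [← mul_nsmul', ← pow_add, ← hj, h1]
    exact h2
  have hBlt : Nat.card B < p ^ 3 := lt_of_le_of_lt (AddSubgroup.card_le_of_le hBA) hlt
  have hBne : ∃ g : G, p ^ l • g ≠ 0 := by
    by_contra hno
    push Not at hno
    by_cases hkl' : k = l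
    · exact hg₀ (by rw [hkl']; exact hno g₀)
    · have h1 : k ≤ l - 1 := by omega
      have h2 := Nat.find_min hex (m := l - 1) (by omega)
      apply h2
      refine ⟨h1, fun g => ?_⟩
      rw [show l - 1 + 1 = l by omega]
      exact hno g
  have hdvd : Nat.card B ∣ p ^ (2 * b) := by
    have h1 := AddSubgroup.card_addSubgroup_dvd_card B
    have h2 : Nat.card G = p ^ (2 * b) := by rw [Nat.card_eq_fintype_card, hG]
    rwa [h2] at h1
  obtain ⟨m, _, hm⟩ := (Nat.dvd_prime_pow hp).mp hdvd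
  have hm3 : m < 3 := by
    rw [hm] at hBlt
    exact (Nat.pow_lt_pow_iff_right hp.one_lt).mp hBlt
  have hl1 : 1 ≤ l := le_trans hk hkl
  obtain ⟨g₁, hg₁⟩ := hBne
  interval_cases m
  · rw [pow_zero] at hm
    have h1 : B = ⊥ := AddSubgroup.card_eq_one.mp hm
    have h2 := hmemB g₁
    rw [h1] at h2
    exact hg₁ h2
  · rw [pow_one] at hm
    exact card_ne_prime N D hD1 hD0 hp2 hl1 hG hN hD hexp B hmemB hsurjB hm
  · exact card_ne_sq N D hD1 hD0 loc_holds hp2 hl1 (by omega) hG hN hD hexp B hmemB hsurjB hm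

end Pool.Agent.H58.LL
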